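import Pool.Agent.W2helper23.SG.Stm

/-!
# Piece SG2: sign characters with equal signs have equal values
-/

set_option autoImplicit false
set_option linter.unusedSectionVars false

namespace Pool.Agent.W2helper85.SG

open NumberField NumberField.ComplexEmbedding Pool.Agent.R389 Pool.Agent.K4H74.ST
open Pool.Agent.W2helper23.SG

/-- the signs of an inflated character -/
lemma neg_iff {F L N : Type} [Field F] [NumberField F] [Field L] [NumberField L] [Field N]
    [NumberField N] [Algebra F L] [IsGalois F L] [Algebra F N] [Algebra L N]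
    [IsScalarTower F L N] (s : (L ≃ₐ[F] L) →* ℂˣ) {φ : N →+* ℂ} {c : N ≃ₐ[F] N}
    (h : IsConj φ c) :
    s.comp (AlgEquiv.restrictNormalHom L) c = -1 ↔ Neg s (φ.comp (algebraMap F N)) := by
  have hc : IsConj (φ.comp (algebraMap L N)) (AlgEquiv.restrictNormalHom L c) := isConj_res h
  have hκ : (φ.comp (algebraMap L N)).comp (algebraMap F L) = φ.comp (algebraMap F N) := by
    ext x
    change φ (algebraMap L N (algebraMap F L x)) = φ (algebraMap F N x)
    rw [← IsScalarTower.algebraMap_apply F L N]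
  constructor
  · intro h1
    exact ⟨_, _, hc, hκ, h1⟩
  · rintro ⟨φ', c', hc', hκ', h1⟩
    have h2 := conj_same s hc hc' (by rw [hκ, hκ'])
    rw [MonoidHom.comp_apply, h2, h1]

/-- SG2 -/
theorem SG2 (hSG1 : P_SG1) : P_SG2 := by
  intro M _ A hC F N₁ N₂ _ _ _ _ _ _ _ _ _ _ s₁ s₂ hs₁ hs₂ hneg
  obtain ⟨N, i1, i2, i3, i4, i5, i6, i7, i8, j, hj⟩ := hSG1 F N₁ N₂
  have hfin : FiniteDimensional F N := Module.Finite.of_restrictScalars_finite ℚ F N
  obtain ⟨s₀, hs₀, hX₀⟩ := odd_i (K := F) hj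
  let σ₁ : (N ≃ₐ[F] N) →* ℂˣ := s₁.comp (AlgEquiv.restrictNormalHom N₁)
  let σ₂ : (N ≃ₐ[F] N) →* ℂˣ := s₂.comp (AlgEquiv.restrictNormalHom N₂)
  have hσ₁ : Sg σ₁ := fun g => hs₁ _
  have hσ₂ : Sg σ₂ := fun g => hs₂ _
  have hX : ∀ x ∈ CC F N, (σ₁ * σ₂) x = 1 := by
    rintro c ⟨φ, hφ⟩
    have h1 := neg_iff (L := N₁) s₁ hφ
    have h2 := neg_iff (L := N₂) s₂ hφ
    have h3 : σ₁ c = -1 ↔ σ₂ c = -1 := h1.trans ((hneg _).trans h2.symm)
    rw [MonoidHom.mul_apply]
    rcases hσ₁ c with h | h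
    · have h4 : σ₂ c = 1 := (hσ₂ c).resolve_right fun h5 => by
        rw [h3.2 h5] at h
        exact neg_one_ne h
      rw [h, h4, one_mul]
    · rw [h, h3.1 h]
      simp
  have h1 := JJ_le hC (even_JJ hs₀ hX₀ (hσ₁.mul hσ₂) hX σ₁)
  have h2 : σ₁ * (σ₁ * σ₂) = σ₂ := by
    ext g
    simp only [MonoidHom.mul_apply]
    rcases hσ₁ g with h | h <;> rw [h] <;> simp
  rw [h2] at h1
  have h3 := val_eq_of_sub A (IsChar.lc σ₂) (IsChar.lc σ₁) h1
  rw [← val_lin_res (A := A) (N := N) s₁, ← val_lin_res (A := A) (N := N) s₂]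
  exact h3.symm

end Pool.Agent.W2helper85.SG
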