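import Pool.Agent.W2helper37.SG.Stm2

/-!
# Project SG (MP_56c18a_ag), piece EQV: equivariance in terms of matrices
-/

set_option autoImplicit false
set_option linter.unusedSectionVars false
set_option linter.unusedSimpArgs false
set_option backward.isDefEq.respectTransparency false
set_option backward.defeqAttrib.useBackward true

open CategoryTheory Limits MonoidalCategory
open Pool.Agent.Y112.SR Pool.Agent.Y112.KD Pool.Agent.Y112.SC
open Pool.Agent.W2helper37.SG

namespace Pool.Agent.W2helper85.SG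

universe v u w

open Functor.LaxMonoidal Functor.OplaxMonoidal

section

variable {C : Type u} [Category.{v} C] [Preadditive C] [MonoidalCategory C] [SymmetricCategory C]
  {K : Type w} [Field K] (R : SuperRealisation C K)

/-- The tensor product of an operator and a map. -/
noncomputable def bg {M X X' : C} (c : R.H.obj M ⟶ R.H.obj M) (g : R.H.obj X ⟶ R.H.obj X') :
    R.H.obj (M ⊗ X) ⟶ R.H.obj (M ⊗ X') := δ R.H M X ≫ (c ⊗ₘ g) ≫ μ R.H M X'

lemma bg_comp {M X X' X'' : C} (c c' : R.H.obj M ⟶ R.H.obj M) (g : R.H.obj X ⟶ R.H.obj X')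
    (g' : R.H.obj X' ⟶ R.H.obj X'') : bg R c g ≫ bg R c' g' = bg R (c ≫ c') (g ≫ g') := by
  simp only [bg, Category.assoc, Functor.Monoidal.μ_δ_assoc]
  rw [tensorHom_comp_tensorHom_assoc]

lemma bx_eq_bg {M X : C} (c : R.H.obj M ⟶ R.H.obj M) (g : R.H.obj X ⟶ R.H.obj X) :
    bx R c g = bg R c g := rfl

lemma bg_map {X X' : C} (M : C) (f : X ⟶ X') :
    R.H.map (M ◁ f) = bg R (𝟙 (R.H.obj M)) (R.H.map f) := by
  rw [bg, ← CategoryTheory.Functor.map_id, ← Functor.Monoidal.map_tensor, id_tensorHom]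

lemma bg_add_left {M X X' : C} (c c' : R.H.obj M ⟶ R.H.obj M) (g : R.H.obj X ⟶ R.H.obj X') :
    bg R (c + c') g = bg R c g + bg R c' g := by
  simp only [bg, MonoidalPreadditive.add_tensor, Preadditive.add_comp, Preadditive.comp_add]

lemma bg_zero_left {M X X' : C} (g : R.H.obj X ⟶ R.H.obj X') :
    bg R (0 : R.H.obj M ⟶ R.H.obj M) g = 0 := by
  have h := bg_add_left R (0 : R.H.obj M ⟶ R.H.obj M) 0 g
  rw [add_zero] at h
  exact left_eq_add.1 h

lemma bg_sum_left {M X X' : C} {ι : Type*} (s : Finset ι) (a : ι → (R.H.obj M ⟶ R.H.obj M))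
    (g : R.H.obj X ⟶ R.H.obj X') : ∑ i ∈ s, bg R (a i) g = bg R (∑ i ∈ s, a i) g := by
  classical
  induction s using Finset.induction_on with
  | empty => rw [Finset.sum_empty, Finset.sum_empty, bg_zero_left]
  | insert i s hi ih => rw [Finset.sum_insert hi, Finset.sum_insert hi, bg_add_left, ih]

/-- `bg 1` is injective if the realisation of `M` is not zero. -/
lemma bg_one_inj {M X X' : C} (hM : ∃ v : R.H.obj M, v ≠ 0) {g g' : R.H.obj X ⟶ R.H.obj X'}
    (h : bg R (𝟙 (R.H.obj M)) g = bg R (𝟙 (R.H.obj M)) g') : g = g' := by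
  obtain ⟨v, hv⟩ := hM
  have h1 := congrArg (fun z => μ R.H M X ≫ z ≫ δ R.H M X') h
  simp only [bg, Category.assoc, Functor.Monoidal.μ_δ_assoc, Functor.Monoidal.μ_δ,
    Category.comp_id, id_tensorHom] at h1
  obtain ⟨φ, hφ⟩ : ∃ φ : Module.Dual K (R.H.obj M), φ v ≠ 0 := by
    by_contra hcon
    push Not at hcon
    exact hv ((Module.forall_dual_apply_eq_zero_iff K v).1 hcon)
  apply ModuleCat.hom_ext
  apply LinearMap.ext
  intro x
  have h2 : (R.H.obj M ◁ g) (TensorProduct.tmul K v x) = (R.H.obj M ◁ g') (TensorProduct.tmul K v x) := by rw [h1]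
  have h3 : TensorProduct.tmul K v (g.hom x) = TensorProduct.tmul K v (g'.hom x) := h2
  have h4 := congrArg (fun z => TensorProduct.lid K (R.H.obj X') (φ.rTensor (R.H.obj X') z)) h3
  simp only [LinearMap.rTensor_tmul, TensorProduct.lid_tmul] at h4
  exact smul_right_injective _ hφ h4

/-- Matrix entries are unique. -/
lemma bg_unique [RightRigidCategory C] {M X X' : C} {ι : Type} [Fintype ι] [DecidableEq ι]
    {o : ι → Bool} {e : ι → ι → (R.H.obj M ⟶ R.H.obj M)} (hU : Units R M o e)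
    {g g' : ι → ι → (R.H.obj X ⟶ R.H.obj X')}
    (h : ∑ i, ∑ k, bg R (e i k) (g k i) = ∑ i, ∑ k, bg R (e i k) (g' k i)) (k₀ i₀ : ι) :
    g k₀ i₀ = g' k₀ i₀ := by
  have key : ∀ (g : ι → ι → (R.H.obj X ⟶ R.H.obj X')) (j : ι),
      bg R (e j i₀) (𝟙 (R.H.obj X)) ≫ (∑ i, ∑ k, bg R (e i k) (g k i)) ≫
        bg R (e k₀ j) (𝟙 (R.H.obj X')) = bg R (e j j) (g k₀ i₀) := by
    intro g j
    simp only [Preadditive.sum_comp, Preadditive.comp_sum, bg_comp, Category.comp_id,
      Category.id_comp]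
    rw [Finset.sum_eq_single i₀, Finset.sum_eq_single k₀]
    · rw [hU.mul i₀ k₀ k₀ j, if_pos rfl, hU.mul j i₀ i₀ j, if_pos rfl]
    · intro k _ hk
      rw [hU.mul i₀ k k₀ j, if_neg hk, comp_zero, bg_zero_left]
    · intro hk
      exact absurd (Finset.mem_univ _) hk
    · intro i _ hi
      refine Finset.sum_eq_zero fun k _ => ?_
      rw [← Category.assoc, hU.mul j i₀ i k, if_neg (fun h => hi h.symm), zero_comp, bg_zero_left]
    · intro hi
      exact absurd (Finset.mem_univ _) hi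
  have h1 : ∀ j, bg R (e j j) (g k₀ i₀) = bg R (e j j) (g' k₀ i₀) := by
    intro j
    rw [← key g j, ← key g' j, h]
  have h2 : bg R (𝟙 (R.H.obj M)) (g k₀ i₀) = bg R (𝟙 (R.H.obj M)) (g' k₀ i₀) := by
    rw [← hU.sum, ← bg_sum_left, ← bg_sum_left]
    exact Finset.sum_congr rfl fun j _ => h1 j
  refine bg_one_inj R ?_ h2
  by_contra hcon
  push Not at hcon
  have h3 : (e i₀ i₀).hom = 0 := by
    apply LinearMap.ext
    intro x
    exact hcon _
  have h4 := hU.tr i₀ i₀
  rw [h3, map_zero, if_pos rfl] at h4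
  exact zero_ne_one h4

end

theorem p_eqv : P_EQV.{v, u, w} := by
  intro C _ _ _ _ _ _ _ _ K _ R M X X' ι _ _ o e hU a a' A A' hA hA' f
  have e1 : R.H.map (M ◁ f ≫ a') =
      ∑ i, ∑ k, bg R (e i k) (R.H.map f ≫ ModuleCat.ofHom (A' k i)) := by
    rw [Functor.map_comp, bg_map, hA']
    simp only [Preadditive.comp_sum, bx_eq_bg, bg_comp, Category.id_comp]
  have e2 : R.H.map (a ≫ M ◁ f) =
      ∑ i, ∑ k, bg R (e i k) (ModuleCat.ofHom (A k i) ≫ R.H.map f) := by
    rw [Functor.map_comp, bg_map, hA]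
    simp only [Preadditive.sum_comp, bx_eq_bg, bg_comp, Category.comp_id]
  rw [e1, e2]
  constructor
  · intro h k i
    have h1 := bg_unique R hU (g := fun k i => R.H.map f ≫ ModuleCat.ofHom (A' k i))
      (g' := fun k i => ModuleCat.ofHom (A k i) ≫ R.H.map f) h k i
    exact (congrArg ModuleCat.Hom.hom h1).symm
  · intro h
    refine Finset.sum_congr rfl fun i _ => Finset.sum_congr rfl fun k _ => ?_
    congr 1
    apply ModuleCat.hom_ext
    exact (h k i).symm

end Pool.Agent.W2helper85.SG
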